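import Pool.Agent.U588.LBP.Stm

set_option autoImplicit false
set_option linter.unusedSectionVars false

/-! Project LBP, package GH: the trivial module is the directed colimit of the modules of cosets of the
finitely generated subgroups. -/

namespace Pool.Agent.U358.LBP

open U722.FF V7N CategoryTheory Pool.Agent.U588.LBP

section

variable {G : Type} [Group G]

/-- the map of cosets -/
def qm {H K : Subgroup G} (h : H ≤ K) : G ⧸ H → G ⧸ K := Subgroup.quotientMapOfLE h

theorem qm_mk {H K : Subgroup G} (h : H ≤ K) (g : G) : qm h (QuotientGroup.mk g) = QuotientGroup.mk g := rfl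

theorem qm_smul {H K : Subgroup G} (h : H ≤ K) (g : G) (x : G ⧸ H) : qm h (g • x) = g • qm h x := by
  induction x using QuotientGroup.induction_on with
  | H a => rfl

theorem qm_qm {H K L : Subgroup G} (h : H ≤ K) (h' : K ≤ L) (x : G ⧸ H) :
    qm h' (qm h x) = qm (h.trans h') x := by
  induction x using QuotientGroup.induction_on with
  | H a => rfl

/-- the transition maps -/
noncomputable def tt {H K : Subgroup G} (h : H ≤ K) : PM G (G ⧸ H) →ₗ[MonoidAlgebra ℤ G] PM G (G ⧸ K) :=
  PMlift (fun x => pt G (qm h x)) (by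
    intro g x
    rw [qm_smul, of_smul_pt])

theorem tt_pt {H K : Subgroup G} (h : H ≤ K) (x : G ⧸ H) : tt h (pt G x) = pt G (qm h x) :=
  PMlift_pt _ _ x

/-- the augmentation -/
noncomputable def aug (G : Type) (X : Type) : PM G X →+ ℤ := PMadd G (fun _ => (1 : ℤ))

theorem aug_pt {X : Type} [MulAction G X] (x : X) : aug G X (pt G x) = 1 := PMadd_pt (fun _ => (1 : ℤ)) x

theorem augG_of (g : G) : augG G (MonoidAlgebra.of ℤ G g) = 1 := by
  change (MonoidAlgebra.lift ℤ ℤ G (1 : G →* ℤ)) (MonoidAlgebra.of ℤ G g) = 1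
  rw [MonoidAlgebra.lift_of]
  rfl

theorem aug_smul {X : Type} [MulAction G X] (g : G) (m : PM G X) :
    aug G X (MonoidAlgebra.of ℤ G g • m) = aug G X m := by
  induction m using PM_induction with
  | h0 => rw [smul_zero]
  | h1 x => rw [of_smul_pt, aug_pt, aug_pt]
  | h2 a b ha hb => rw [smul_add, map_add, ha, hb, map_add]
  | h3 a ha => rw [smul_neg, map_neg, ha, map_neg]

/-- the augmentation, as a linear map to the trivial module -/
noncomputable def ll (X : Type) [MulAction G X] : PM G X →ₗ[MonoidAlgebra ℤ G] trivG G where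
  toFun x := (aug G X x : ℤ)
  map_add' a b := (aug G X).map_add a b
  map_smul' := by
    intro r m
    rw [RingHom.id_apply]
    change aug G X (r • m) = augG G r • aug G X m
    induction r using MonoidAlgebra.induction_on with
    | of g => rw [aug_smul, augG_of, one_smul]
    | add a b ha hb => rw [add_smul, map_add, map_add, add_smul, ha, hb]
    | smul z a ha => rw [smul_assoc, map_zsmul, ha, map_zsmul, smul_assoc]

theorem ll_eq {X : Type} [MulAction G X] (x : PM G X) : ll (G := G) X x = (aug G X x : ℤ) := rfl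

theorem tt_tt {H K L : Subgroup G} (h : H ≤ K) (h' : K ≤ L) (x : PM G (G ⧸ H)) :
    tt h' (tt h x) = tt (h.trans h') x := by
  induction x using PM_induction with
  | h0 => rw [map_zero, map_zero, map_zero]
  | h1 x => rw [tt_pt, tt_pt, tt_pt, qm_qm]
  | h2 a b ha hb => rw [map_add, map_add, map_add, ha, hb]
  | h3 a ha => rw [map_neg, map_neg, map_neg, ha]

theorem aug_tt {H K : Subgroup G} (h : H ≤ K) (x : PM G (G ⧸ H)) :
    aug G _ (tt h x) = aug G _ x := by
  induction x using PM_induction with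
  | h0 => rw [map_zero, map_zero, map_zero]
  | h1 x => rw [tt_pt, aug_pt, aug_pt]
  | h2 a b ha hb => rw [map_add, map_add, map_add, ha, hb]
  | h3 a ha => rw [map_neg, map_neg, map_neg, ha]

theorem fg_sup {H K : Subgroup G} (hH : Group.FG H) (hK : Group.FG K) : Group.FG ↥(H ⊔ K) := by
  rw [Group.fg_iff_subgroup_fg] at *
  obtain ⟨S, hS⟩ := hH
  obtain ⟨T, hT⟩ := hK
  classical
  exact ⟨S ∪ T, by rw [Finset.coe_union, Subgroup.closure_union, hS, hT]⟩

theorem fg_single (g : G) : Group.FG ↥(Subgroup.closure {g}) := by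
  rw [Group.fg_iff_subgroup_fg]
  exact ⟨{g}, by rw [Finset.coe_singleton]⟩

theorem fg_bot : Group.FG ↥(⊥ : Subgroup G) := by
  rw [Group.fg_iff_subgroup_fg]
  exact ⟨∅, by rw [Finset.coe_empty, Subgroup.closure_empty]⟩

/-- every element is sent to a multiple of the trivial coset -/
theorem key {H : Subgroup G} (hH : Group.FG H) (x : PM G (G ⧸ H)) : ∃ K : Subgroup G, Group.FG K ∧ H ≤ K ∧
    ∀ (L : Subgroup G) (_ : K ≤ L) (h : H ≤ L),
      tt h x = aug G _ x • pt G (QuotientGroup.mk 1 : G ⧸ L) := by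
  induction x using PM_induction with
  | h0 => exact ⟨H, hH, le_rfl, fun L _ h => by rw [map_zero, map_zero, zero_smul]⟩
  | h1 x =>
    induction x using QuotientGroup.induction_on with
    | H g =>
      refine ⟨H ⊔ Subgroup.closure {g}, fg_sup hH (fg_single g), le_sup_left, fun L hL h => ?_⟩
      have hg : g ∈ L := hL (Subgroup.mem_sup_right (Subgroup.subset_closure rfl))
      rw [tt_pt, aug_pt, one_smul, qm_mk]
      congr 1
      rw [QuotientGroup.eq]
      exact L.mul_mem (L.inv_mem hg) L.one_mem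
  | h2 a b ha hb =>
    obtain ⟨K, h1, h2, h3⟩ := ha
    obtain ⟨K', h4, h5, h6⟩ := hb
    refine ⟨K ⊔ K', fg_sup h1 h4, h2.trans le_sup_left, fun L hL h => ?_⟩
    rw [map_add, map_add, h3 L (le_sup_left.trans hL) h, h6 L (le_sup_right.trans hL) h, add_smul]
  | h3 a ha =>
    obtain ⟨K, h1, h2, h3⟩ := ha
    refine ⟨K, h1, h2, fun L hL h => ?_⟩
    rw [map_neg, map_neg, h3 L hL h, neg_smul]

end

theorem t_GH : S_GH := by
  intro G _
  refine ⟨fun i j h => tt (G := G) (H := i.1) (K := j.1) h, fun i => ll (G := G) (G ⧸ i.1), ?_⟩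
  constructor
  · exact ⟨⟨⊥, fg_bot⟩⟩
  · intro i j
    exact ⟨⟨i.1 ⊔ j.1, fg_sup i.2 j.2⟩, (le_sup_left : i.1 ≤ i.1 ⊔ j.1), (le_sup_right : j.1 ≤ i.1 ⊔ j.1)⟩
  · intro i j k h h' x
    exact tt_tt (G := G) (H := i.1) (K := j.1) (L := k.1) h h' x
  · intro i j h x
    exact aug_tt (G := G) (H := i.1) (K := j.1) h x
  · intro y
    refine ⟨⟨⊥, fg_bot⟩, (show ℤ from y) • pt G (QuotientGroup.mk 1 : G ⧸ (⊥ : Subgroup G)), ?_⟩
    change aug G _ ((show ℤ from y) • pt G (QuotientGroup.mk 1 : G ⧸ (⊥ : Subgroup G))) = (show ℤ from y)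
    rw [map_zsmul, aug_pt, smul_eq_mul, mul_one]
  · intro i x hx
    obtain ⟨K, h1, h2, h3⟩ := key (G := G) (H := i.1) i.2 x
    refine ⟨⟨K, h1⟩, h2, ?_⟩
    have hx' : aug G _ (show PM G (G ⧸ i.1) from x) = 0 := hx
    have h4 := h3 K le_rfl h2
    rw [show aug G (G ⧸ i.1) x = 0 from hx', zero_smul] at h4
    exact h4

end Pool.Agent.U358.LBP
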